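import Pool.Agent.Lib.MP_b39e30_al.Fit.Stab

/-!
The action on an invariant submodule of the matrix ring, through the dual module.
-/

set_option autoImplicit false

namespace Pool.Agent.Lib.MP_b39e30_al.Fit

open Pool.Agent.Lib.MP_b39e30_al.Lin

/-- The statement on finitely generated modules that is used. -/
def ModUnip (R Γ : Type) [CommRing R] [Group Γ] (g : Γ) : Prop :=
  ∀ (M : Type) [AddCommGroup M] [Module R M] [Module.Finite R M] (σ : Γ →* Module.End R M),
    IsNilpotent (σ g - 1) → ∃ m : ℕ, ∀ l : List Γ, l.length = m →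
      (l.map fun x => σ (x⁻¹ * g * x) - 1).prod = 0

theorem dual {ι R Γ : Type} [Fintype ι] [DecidableEq ι] [CommRing R] [Group Γ]
    (ρ : Γ →* Matrix ι ι R) {g : Γ} (h : ModUnip R Γ g) (L : Submodule R (Matrix ι ι R))
    (hL : ∀ x, ∀ W ∈ L, cj ρ x W ∈ L) {n : ℕ}
    (hu : ∀ W ∈ L, (fun Z => cj ρ g Z - Z)^[n] W = 0) :
    ∃ m : ℕ, ∀ l : List Γ, l.length = m → ∀ W ∈ L, df ρ g l W = 0 := by
  let c : Γ → Module.End R (Matrix ι ι R) := fun x =>
    { toFun := cj ρ x
      map_add' := cj_add ρ x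
      map_smul' := fun r Z => by simp [cj] }
  have hc : ∀ x Z, c x Z = cj ρ x Z := fun _ _ => rfl
  let τ : Γ →* Module.End R (Module.Dual R (Matrix ι ι R)) :=
    { toFun := fun x => (c x).dualMap
      map_one' := by
        refine LinearMap.ext fun φ => LinearMap.ext fun Z => ?_
        rw [LinearMap.dualMap_apply, hc, cj_one, Module.End.one_apply]
      map_mul' := fun x y => by
        refine LinearMap.ext fun φ => LinearMap.ext fun Z => ?_
        rw [Module.End.mul_apply, LinearMap.dualMap_apply, LinearMap.dualMap_apply,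
          LinearMap.dualMap_apply, hc, hc, hc, cj_mul] }
  have hτ : ∀ x φ Z, τ x φ Z = φ (cj ρ x Z) := fun _ _ _ => rfl
  have hK : ∀ x, L.dualAnnihilator ≤ L.dualAnnihilator.comap (τ x) := fun x φ hφ =>
    (Submodule.mem_dualAnnihilator _).2 fun W hW =>
      (Submodule.mem_dualAnnihilator _).1 hφ _ (hL x W hW)
  let σ : Γ →* Module.End R (Module.Dual R (Matrix ι ι R) ⧸ L.dualAnnihilator) :=
    { toFun := fun x => L.dualAnnihilator.mapQ _ (τ x) (hK x)
      map_one' := by
        refine Submodule.linearMap_qext _ (LinearMap.ext fun φ => ?_)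
        simp
      map_mul' := fun x y => by
        refine Submodule.linearMap_qext _ (LinearMap.ext fun φ => ?_)
        simp }
  have hσ : ∀ x φ, σ x (L.dualAnnihilator.mkQ φ) = L.dualAnnihilator.mkQ (τ x φ) :=
    fun _ _ => rfl
  have h1 : ∀ (l : List Γ) φ, ∃ ψ, (l.map fun x => σ x - 1).prod (L.dualAnnihilator.mkQ φ) =
      L.dualAnnihilator.mkQ ψ ∧
      ∀ Z, ψ Z = φ (l.foldl (fun Z x => cj ρ x Z - Z) Z) := by
    intro l φ
    induction l with
    | nil => exact ⟨φ, rfl, fun _ => rfl⟩
    | cons x l ih =>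
      obtain ⟨ψ, e1, e2⟩ := ih
      refine ⟨τ x ψ - ψ, ?_, fun Z => ?_⟩
      · rw [List.map_cons, List.prod_cons, Module.End.mul_apply, e1, LinearMap.sub_apply, hσ,
          map_sub, Module.End.one_apply]
      · rw [List.foldl_cons, ← e2, map_sub, LinearMap.sub_apply, hτ]
  have h2 : ∀ k Z, (List.replicate k g).foldl (fun Z x => cj ρ x Z - Z) Z =
      (fun Z => cj ρ g Z - Z)^[k] Z := fun k => by
    induction k with
    | zero => exact fun _ => rfl
    | succ k ih => exact fun Z => by rw [List.replicate_succ, List.foldl_cons, ih]; rfl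
  obtain ⟨m, hm⟩ := h _ σ ⟨n, Submodule.linearMap_qext _ (LinearMap.ext fun φ => by
    obtain ⟨ψ, e1, e2⟩ := h1 (List.replicate n g) φ
    rw [List.map_replicate, List.prod_replicate] at e1
    refine e1.trans ((Submodule.Quotient.mk_eq_zero _).2
      ((Submodule.mem_dualAnnihilator _).2 fun W hW => ?_))
    rw [e2, h2, hu W hW, map_zero])⟩
  refine ⟨m, fun l hl W hW => Matrix.ext fun a b => ?_⟩
  obtain ⟨ψ, e1, e2⟩ := h1 (l.map fun x => x⁻¹ * g * x) (Matrix.entryLinearMap R R a b)
  rw [List.map_map] at e1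
  have e3 := (Submodule.Quotient.mk_eq_zero _).1
    (e1.symm.trans (congrArg (fun T : Module.End R _ => T _) (hm l hl)))
  have e4 := (Submodule.mem_dualAnnihilator _).1 e3 W hW
  rw [e2, List.foldl_map] at e4
  exact e4

end Pool.Agent.Lib.MP_b39e30_al.Fit
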