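import Pool.Agent.Lib.MP_b39e30_al.Fit.Dual
import Pool.Agent.Lib.MP_b39e30_al.Lin.GMain

/-!
The normal closure of a bounded left Engel element of a linear group over a commutative
`ℚ`-algebra is nilpotent.
-/

set_option autoImplicit false

namespace Pool.Agent.Lib.MP_b39e30_al.Fit

open Pool.Agent.Lib.MP_b39e30_al.Lin

theorem fitQ {ι R Γ : Type} [Fintype ι] [DecidableEq ι] [CommRing R] [Algebra ℚ R] [Group Γ]
    (ρ : Γ →* Matrix ι ι R) (hρ : Function.Injective ρ) {n : ℕ} {g : Γ} (h : Eng n g)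
    (hM : ModUnip R Γ g) : ∃ c, ∀ f : ℕ → Γ, zw g f c = 1 := by
  obtain ⟨e, he⟩ := ultra ρ h
  have := ZN_normal g e
  have hu : ∀ W ∈ Submodule.span ℚ (logs ρ (ZN g e)),
      (fun Z => ρ g⁻¹ * Z * ρ g - Z)^[n] W = 0 := fun W hW =>
    GE.unip (by rw [← map_mul, mul_inv_cancel, map_one])
      (by rw [← map_mul, inv_mul_cancel, map_one])
      (formalG (S := Submodule.span ℚ (logs ρ (ZN g e)))
        (fun p hp => vanG_DGl ρ (logs_DG ρ _) p (relG_subset ρ h hp)) W (LG.mem hW))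
  let L := Submodule.span R (Submodule.span ℚ (logs ρ (ZN g e)) : Set (Matrix ι ι R))
  let c : Γ → Module.End R (Matrix ι ι R) := fun x =>
    { toFun := cj ρ x
      map_add' := cj_add ρ x
      map_smul' := fun r Z => by simp [cj] }
  have hL : ∀ x, ∀ W ∈ L, cj ρ x W ∈ L := fun x W hW =>
    (Submodule.span_le.2 (fun W hW => Submodule.subset_span (by
      have h1 := logs_conj ρ (ZN g e) x⁻¹ W hW
      rw [inv_inv] at h1
      exact h1)) : L ≤ L.comap (c x)) hW
  have hp : ∀ k Z, ((c g - 1) ^ k) Z = (fun Z => cj ρ g Z - Z)^[k] Z := fun k Z => by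
    rw [Module.End.pow_apply]
    rfl
  obtain ⟨m, hm⟩ := dual ρ hM L hL (n := n) fun W hW => by
    rw [← hp]
    exact (Submodule.span_le.2 (fun W hW => (hp n W).trans (hu W hW)) :
      L ≤ LinearMap.ker ((c g - 1) ^ n)) hW
  exact ⟨e + m + m, stab hρ he L.toAddSubgroup
    (fun W hW => Submodule.subset_span (Submodule.subset_span hW)) hL hm⟩

end Pool.Agent.Lib.MP_b39e30_al.Fit
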