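import Pool.Agent.Lib.MP_b39e30_al.Lin.GComm
import Pool.Agent.Lib.MP_b39e30_al.Lin.Setup

/-!
From a uniformly unipotent action on the logarithms to the vanishing of long commutators.
-/

set_option autoImplicit false

namespace Pool.Agent.Lib.MP_b39e30_al.Fit

open Pool.Agent.Lib.MP_b39e30_al.Lin

variable {Γ A : Type*} [Group Γ] [Ring A]

/-- Conjugation by `x`. -/
def cj (ρ : Γ →* A) (x : Γ) (Z : A) : A := ρ x⁻¹ * Z * ρ x

/-- The iterated difference along the conjugates of `g` by the elements of a list. -/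
def df (ρ : Γ →* A) (g : Γ) (l : List Γ) (W : A) : A :=
  l.foldl (fun Z x => cj ρ (x⁻¹ * g * x) Z - Z) W

variable (ρ : Γ →* A) (g : Γ)

theorem cj_mul (x y : Γ) (Z : A) : cj ρ (x * y) Z = cj ρ y (cj ρ x Z) := by
  simp only [cj, mul_inv_rev, map_mul, mul_assoc]

theorem cj_one (Z : A) : cj ρ 1 Z = Z := by simp [cj]

theorem cj_sub (x : Γ) (Z Z' : A) : cj ρ x (Z - Z') = cj ρ x Z - cj ρ x Z' := by
  simp only [cj, mul_sub, sub_mul]

theorem cj_add (x : Γ) (Z Z' : A) : cj ρ x (Z + Z') = cj ρ x Z + cj ρ x Z' := by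
  simp only [cj, mul_add, add_mul]

theorem cj_zero (x : Γ) : cj ρ x 0 = 0 := by simp [cj]

theorem cj_neg (x : Γ) (Z : A) : cj ρ x (-Z) = -cj ρ x Z := by simp [cj]

theorem cj_map (x y : Γ) : cj ρ x (ρ y) = ρ (x⁻¹ * y * x) := by simp [cj]

theorem cj_mul' (x : Γ) (Z Z' : A) : cj ρ x (Z * Z') = cj ρ x Z * cj ρ x Z' := by
  have h : ρ x * ρ x⁻¹ = 1 := by rw [← map_mul, mul_inv_cancel, map_one]
  calc cj ρ x (Z * Z') = ρ x⁻¹ * Z * (ρ x * ρ x⁻¹) * Z' * ρ x := by
        rw [h]; simp only [cj, mul_assoc, one_mul]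
    _ = _ := by simp only [cj, mul_assoc]

theorem df_snoc (l : List Γ) (x : Γ) (W : A) :
    df ρ g (l ++ [x]) W = cj ρ (x⁻¹ * g * x) (df ρ g l W) - df ρ g l W := by
  simp [df, List.foldl_append]

theorem df_zero (l : List Γ) : df ρ g l 0 = 0 := by
  induction l using List.reverseRecOn with
  | nil => rfl
  | append_singleton l x ih => rw [df_snoc, ih, cj_zero, sub_zero]

theorem df_conj (y : Γ) (l : List Γ) (W : A) :
    cj ρ y (df ρ g l W) = df ρ g (l.map (· * y)) (cj ρ y W) := by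
  induction l using List.reverseRecOn with
  | nil => rfl
  | append_singleton l x ih =>
    rw [df_snoc, List.map_append, List.map_singleton, df_snoc, ← ih, cj_sub, ← cj_mul, ← cj_mul]
    congr 2
    group

/-- The series of the action. -/
def ser (L : Set A) (i : ℕ) : AddSubgroup A :=
  AddSubgroup.closure {Z | ∃ l : List Γ, ∃ W ∈ L, l.length = i ∧ Z = df ρ g l W}

variable {ρ g}

theorem ser_mem {L : Set A} {i : ℕ} (l : List Γ) {W Z : A} (hW : W ∈ L) (hl : l.length = i)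
    (h : Z = df ρ g l W) : Z ∈ ser ρ g L i := AddSubgroup.subset_closure ⟨l, W, hW, hl, h⟩

theorem ser_ind {L : Set A} {i : ℕ} {T : AddSubgroup A} (φ : A → A)
    (h0 : ∀ a b, φ (a - b) = φ a - φ b)
    (h : ∀ l : List Γ, ∀ W ∈ L, l.length = i → φ (df ρ g l W) ∈ T) {Z : A}
    (hZ : Z ∈ ser ρ g L i) : φ Z ∈ T := by
  have hz : φ 0 = 0 := by simpa using h0 0 0
  have hn : ∀ a, φ (-a) = -φ a := fun a => by simpa [hz] using h0 0 a
  induction hZ using AddSubgroup.closure_induction with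
  | mem Z hZ => obtain ⟨l, W, hW, hl, rfl⟩ := hZ; exact h l W hW hl
  | zero => rw [hz]; exact T.zero_mem
  | add a b _ _ ha hb =>
    have : φ (a + b) = φ a + φ b := by rw [← sub_neg_eq_add, h0, hn, sub_neg_eq_add]
    rw [this]; exact T.add_mem ha hb
  | neg a _ ha => rw [hn]; exact T.neg_mem ha

theorem ser_conj {L : Set A} (hL : ∀ x, ∀ W ∈ L, cj ρ x W ∈ L) {i : ℕ} (y : Γ) {Z : A}
    (hZ : Z ∈ ser ρ g L i) : cj ρ y Z ∈ ser ρ g L i :=
  ser_ind (cj ρ y) (cj_sub ρ y) (fun l W hW hl => ser_mem (l.map (· * y)) (hL y W hW)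
    (by simpa using hl) (df_conj ρ g y l W)) hZ

theorem ser_step {L : Set A} {i : ℕ} (x : Γ) {Z : A} (hZ : Z ∈ ser ρ g L i) :
    cj ρ (x⁻¹ * g * x) Z - Z ∈ ser ρ g L (i + 1) :=
  ser_ind (fun Z => cj ρ (x⁻¹ * g * x) Z - Z) (fun a b => by rw [cj_sub]; abel)
    (fun l W hW hl => ser_mem (l ++ [x]) hW (by simp [hl]) (df_snoc ρ g l x W).symm) hZ

theorem ser_zw {L : Set A} (hL : ∀ x, ∀ W ∈ L, cj ρ x W ∈ L) (f : ℕ → Γ) (j : ℕ) :
    ∀ i, ∀ Z ∈ ser ρ g L i, cj ρ (zw g f j) Z - Z ∈ ser ρ g L (i + j + 1) := by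
  induction j with
  | zero => exact fun i Z hZ => ser_step (f 0) hZ
  | succ j ih =>
    intro i Z hZ
    set a := zw g f j
    set b := (f (j + 1))⁻¹ * g * f (j + 1) with hb
    have h1 := ser_conj hL (a⁻¹ * b⁻¹) hZ
    set Y := cj ρ (a⁻¹ * b⁻¹) Z with hY
    have e1 : cj ρ (zw g f (j + 1)) Z = cj ρ b (cj ρ a Y) := by
      rw [hY, ← cj_mul, ← cj_mul, ← mul_assoc _ a b]
      rfl
    have e2 : Z = cj ρ a (cj ρ b Y) := by
      rw [hY, ← cj_mul, ← cj_mul, show a⁻¹ * b⁻¹ * (b * a) = 1 by group, cj_one]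
    have h2 := ser_step (f (j + 1)) (ih i Y h1)
    have h3 := ih (i + 1) _ (ser_step (f (j + 1)) h1)
    rw [← hb] at h2 h3
    rw [show i + 1 + j + 1 = i + j + 1 + 1 by omega] at h3
    have h4 := sub_mem h2 h3
    rw [cj_sub, cj_sub, ← e2, ← e1] at h4
    rw [show i + (j + 1) + 1 = i + j + 1 + 1 by omega]
    convert h4 using 1
    abel

theorem ser_bot {L : Set A} {m : ℕ} (hm : ∀ l : List Γ, l.length = m → ∀ W ∈ L, df ρ g l W = 0)
    {i : ℕ} (hi : m ≤ i) {Z : A} (hZ : Z ∈ ser ρ g L i) : Z = 0 := by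
  refine AddSubgroup.mem_bot.1 (ser_ind (T := ⊥) id (fun _ _ => rfl) (fun l W hW hl => ?_) hZ)
  rw [← List.take_append_drop m l, AddSubgroup.mem_bot, id, df, List.foldl_append]
  have := hm (l.take m) (by simp [hl, hi]) W hW
  rw [df] at this
  rw [this]
  exact df_zero ρ g _

variable [Algebra ℚ A]

theorem log_comm {N : A} (h : IsNilpotent N) : ∃ X : A, IsNilpotent X ∧
    IsNilpotent.exp X = 1 + N ∧ ∀ Y, Commute N Y → Commute X Y := by
  let _ : CommRing (Algebra.adjoin ℚ ({N} : Set A)) :=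
    { (inferInstance : Ring (Algebra.adjoin ℚ ({N} : Set A))) with
      mul_comm := fun a b => mul_comm' a b }
  have h1 : IsNilpotent (⟨N, Algebra.self_mem_adjoin_singleton ℚ N⟩ :
      Algebra.adjoin ℚ ({N} : Set A)) := h.imp fun m hm => Subtype.ext hm
  obtain ⟨X, hX, e⟩ := setup_comm h1
  refine ⟨X, hX.map (Algebra.adjoin ℚ ({N} : Set A)).val, ?_, fun Y hY => ?_⟩
  · have := congrArg (Algebra.adjoin ℚ ({N} : Set A)).val e
    rwa [IsNilpotent.map_exp hX] at this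
  · exact (Algebra.commute_of_mem_adjoin_of_forall_mem_commute X.2 fun b hb => by
      rw [Set.mem_singleton_iff.1 hb]; exact hY.symm).symm

theorem cj_exp (x : Γ) {W : A} (h : IsNilpotent W) :
    IsNilpotent (cj ρ x W) ∧ IsNilpotent.exp (cj ρ x W) = cj ρ x (IsNilpotent.exp W) := by
  let φ : A →+* A :=
    { toFun := cj ρ x
      map_one' := by simpa using cj_map ρ x 1
      map_mul' := cj_mul' ρ x
      map_zero' := cj_zero ρ x
      map_add' := cj_add ρ x }
  exact ⟨h.map φ, (IsNilpotent.map_exp h φ).symm⟩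

/-- Long commutators in the conjugates of `g` vanish. -/
theorem stab (hρ : Function.Injective ρ) {e m : ℕ} (he : ∀ w ∈ ZN g e, IsNilpotent (ρ w - 1))
    (L : AddSubgroup A) (hl : logs ρ (ZN g e) ⊆ L) (hL : ∀ x, ∀ W ∈ L, cj ρ x W ∈ L)
    (hm : ∀ l : List Γ, l.length = m → ∀ W ∈ L, df ρ g l W = 0) (f : ℕ → Γ) :
    zw g f (e + m + m) = 1 := by
  have h0 : ∀ W ∈ L, W ∈ ser ρ g L 0 := fun W hW =>
    AddSubgroup.subset_closure ⟨[], W, hW, rfl, rfl⟩
  have key : ∀ j, ∃ W ∈ L, W ∈ ser ρ g L j ∧ IsNilpotent W ∧ (∀ Y ∈ L, Commute W Y) ∧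
      ρ (zw g f (e + m + j)) = IsNilpotent.exp W := by
    intro j
    induction j with
    | zero =>
      have hz : zw g f (e + m) ∈ ZN g e := gcm_anti g (Nat.le_add_right e m) (gcm_mem g f _)
      obtain ⟨X, hX, e1, hc⟩ := log_comm (he _ hz)
      rw [add_sub_cancel] at e1
      have hXL : X ∈ L := hl ⟨hX, _, hz, e1.symm⟩
      refine ⟨X, hXL, h0 X hXL, hX, fun Y hY => hc Y ?_, e1.symm⟩
      have h1 := sub_eq_zero.1 (ser_bot hm (by omega) (ser_zw hL f (e + m) 0 Y (h0 Y hY)))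
      refine Commute.sub_left ?_ (Commute.one_left Y)
      have h2 := congrArg (ρ (zw g f (e + m)) * ·) h1
      simp only [cj, ← mul_assoc, ← map_mul, mul_inv_cancel, map_one, one_mul] at h2
      exact h2.symm
    | succ j ih =>
      obtain ⟨W, hW, hs, hn, hc, e1⟩ := ih
      set b := (f (e + m + j + 1))⁻¹ * g * f (e + m + j + 1) with hb
      obtain ⟨hn', e2⟩ := cj_exp (ρ := ρ) b hn
      have hW' := hL b W hW
      have hc' : ∀ Y ∈ L, Commute (cj ρ b W) Y := fun Y hY => by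
        have h1 := congrArg (cj ρ b) (hc _ (hL b⁻¹ Y hY)).eq
        rwa [cj_mul', cj_mul', ← cj_mul, inv_mul_cancel, cj_one] at h1
      have hcc : Commute (-W) (cj ρ b W) := (hc _ hW').neg_left
      refine ⟨cj ρ b W - W, sub_mem hW' hW, ser_step _ hs, ?_,
        fun Y hY => (hc' Y hY).sub_left (hc Y hY), ?_⟩
      · exact (hc' W hW).isNilpotent_sub hn' hn
      · have e3 : ρ (zw g f (e + m + j))⁻¹ = IsNilpotent.exp (-W) := by
          have h1 := IsNilpotent.exp_mul_exp_neg_self hn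
          rw [← e1] at h1
          refine left_inv_eq_right_inv ?_ h1
          rw [← map_mul, inv_mul_cancel, map_one]
        rw [sub_eq_neg_add, IsNilpotent.exp_add_of_commute hcc hn.neg hn', e2, ← e1, ← e3, cj_map,
          ← map_mul, ← add_assoc, zw, ← hb]
        simp only [mul_assoc]
  obtain ⟨W, -, hs, -, -, e1⟩ := key m
  rw [ser_bot hm le_rfl hs, IsNilpotent.exp_zero, ← map_one ρ] at e1
  exact hρ e1

end Pool.Agent.Lib.MP_b39e30_al.Fit
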