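import Pool.Agent.Lib.MP_b39e30_al.Fit.Main
import Pool.Agent.Lib.MP_b39e30_al.Lin.PUni
import Pool.Agent.Lib.MP_b39e30_al.Lin.GTors

/-!
Uniform bounds and large characteristic, by a reduced product.
-/

set_option autoImplicit false

namespace Pool.Agent.Lib.MP_b39e30_al.Fit

open Filter Pool.Agent.Lib.MP_b39e30_al.Lin

theorem modUnip (R : Type) {Γ : Type} [CommRing R] [Algebra ℚ R] [Group Γ] {n : ℕ} {g : Γ}
    (h : Eng n g) : ModUnip R Γ g := fun M _ _ _ σ hu => by
  obtain ⟨s, hs⟩ := unipPP σ h hu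
  refine ⟨s, fun l hl => ?_⟩
  subst hl
  have h1 := hs l.get
  rwa [show (fun i => σ ((l.get i)⁻¹ * g * l.get i) - 1) =
    (fun x => σ (x⁻¹ * g * x) - 1) ∘ l.get from rfl, ← List.map_ofFn, List.ofFn_get] at h1

/-- The case of a ring with torsion-free additive group. -/
theorem torsionFree {ι R Γ : Type} [Fintype ι] [DecidableEq ι] [CommRing R] [IsAddTorsionFree R]
    [Group Γ] (ρ : Γ →* Matrix ι ι R) {n : ℕ} {g : Γ} (h : Eng n g) :
    ∃ c, ∀ f : ℕ → Γ, ρ (zw g f c) = 1 := by
  obtain ⟨R', _, _, φ, hφ⟩ := exists_rat_algebra R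
  have h1 := h.map _ ρ.toHomUnits.rangeRestrict_surjective
  obtain ⟨c, hc⟩ := fitQ ((φ.mapMatrix.toMonoidHom.comp (Units.coeHom _)).comp
    ρ.toHomUnits.range.subtype)
    (((Matrix.map_injective hφ).comp Units.val_injective).comp Subtype.val_injective) h1
    (modUnip R' h1)
  exact ⟨c, fun f => congrArg (fun x : ρ.toHomUnits.range => (x.1 : Matrix ι ι R))
    ((map_zw ρ.toHomUnits.rangeRestrict g f c).trans (hc _))⟩

theorem lcs_le {Γ : Type*} [Group Γ] (g : Γ) (e : ℕ) :
    (Subgroup.normalClosure ({g} : Set Γ)).lowerCentralSeries e ≤ ZN g e := by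
  induction e with
  | zero =>
    have := ZN_normal g 0
    refine Subgroup.normalClosure_le_normal ?_
    rw [Set.singleton_subset_iff]
    simpa [zw] using gcm_mem g (fun _ => 1) 0
  | succ e ih =>
    have := ZN_normal g (e + 1)
    have h0 := ZN_normal g e
    refine (Subgroup.commutator_mono ih le_rfl).trans (Subgroup.commutator_le.2 fun w hw h hh => ?_)
    let C : Subgroup Γ := (Subgroup.centralizer
      ((ZN g e).map (QuotientGroup.mk' (ZN g (e + 1))) : Set (Γ ⧸ ZN g (e + 1)))).comap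
        (QuotientGroup.mk' (ZN g (e + 1)))
    have h1 : ((ZN g e).map (QuotientGroup.mk' (ZN g (e + 1)))).Normal :=
      h0.map _ (QuotientGroup.mk'_surjective _)
    have h2 : Subgroup.normalClosure ({g} : Set Γ) ≤ C := by
      refine Subgroup.normalClosure_le_normal ?_
      rw [Set.singleton_subset_iff]
      rintro _ ⟨v, hv, rfl⟩
      have h3 := (QuotientGroup.eq (s := ZN g (e + 1))).2 (gcm_cent g e hv)
      rw [QuotientGroup.mk_mul, QuotientGroup.mk_mul, QuotientGroup.mk_inv,
        eq_mul_inv_iff_mul_eq] at h3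
      exact h3.symm
    rw [← QuotientGroup.eq_one_iff, ← QuotientGroup.mk'_apply, map_commutatorElement,
      commutatorElement_eq_one_iff_mul_comm]
    exact h2 hh _ ⟨w, hw, rfl⟩

theorem unif (ι : Type) [Fintype ι] [DecidableEq ι] (n : ℕ) : ∃ N : ℕ,
    ∀ (R G : Type) [CommRing R] [Group G] (ρ : G →* Matrix ι ι R) (g : G),
      (∀ (m : ℕ) (r : R), m ≠ 0 → m ≤ N → m • r = 0 → r = 0) →
      Eng n g → ∀ f, ρ (zw g f N) = 1 := by
  by_contra hcon
  simp only [not_exists, not_forall] at hcon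
  choose R G _ _ σ g hR hg f hf using hcon
  let I : Ideal (∀ N, R N) :=
    { carrier := {r | ∀ᶠ N in atTop, r N = 0}
      add_mem' := fun ha hb => (ha.and hb).mono fun N h => by rw [Pi.add_apply, h.1, h.2, add_zero]
      zero_mem' := Eventually.of_forall fun _ => rfl
      smul_mem' := fun c _ h => Eventually.mono h fun N h => by
        rw [smul_eq_mul, Pi.mul_apply, h, mul_zero] }
  let ρ : (∀ N, G N) →* Matrix ι ι (∀ N, R N) :=
    { toFun := fun x => Matrix.of fun i j N => σ N (x N) i j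
      map_one' := by
        ext i j N
        by_cases h : i = j <;> simp [h, Matrix.one_apply]
      map_mul' := fun x y => by
        ext i j N
        simp [Matrix.mul_apply] }
  have h1 : Eng n g := fun x => funext fun N => by
    have h2 : Function.Semiconj (fun x : ∀ N, G N => x N) (fun y => y⁻¹ * g⁻¹ * y * g)
      (fun y => y⁻¹ * (g N)⁻¹ * y * g N) := fun _ => rfl
    exact (h2.iterate_right n x).trans (hg N _)
  have : IsAddTorsionFree ((∀ N, R N) ⧸ I) := ⟨fun m hm a b hab => by
    obtain ⟨a, rfl⟩ := Ideal.Quotient.mk_surjective a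
    obtain ⟨b, rfl⟩ := Ideal.Quotient.mk_surjective b
    have h : m • (a - b) ∈ I := by
      rw [← Ideal.Quotient.eq_zero_iff_mem, map_nsmul, map_sub, nsmul_sub]
      exact sub_eq_zero.2 hab
    exact Ideal.Quotient.eq.2 (Eventually.mono
      (Eventually.and h (eventually_ge_atTop m)) fun N h => hR N m _ hm h.2 h.1)⟩
  obtain ⟨e, he⟩ := torsionFree ((Ideal.Quotient.mk I).mapMatrix.toMonoidHom.comp ρ) h1
  have h3 : ∀ i j, ∀ᶠ N in atTop, (ρ (zw g (fun i N => f N i) e) - ρ 1) i j N = 0 := fun i j => by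
    have h5 := (he fun i N => f N i).trans
      (map_one ((Ideal.Quotient.mk I).mapMatrix.toMonoidHom.comp ρ)).symm
    exact Ideal.Quotient.eq.1 (congrFun (congrFun h5 i) j)
  obtain ⟨N, h4, h5⟩ := ((eventually_all.2 fun i => eventually_all.2 (h3 i)).and
    (eventually_ge_atTop e)).exists
  have h6 : (σ N).toHomUnits (zw (g N) (f N) e) = 1 := by
    rw [← (σ N).toHomUnits.map_one]
    refine Units.ext (Matrix.ext fun i j => ?_)
    have h7 := map_zw (Pi.evalMonoidHom (fun N => G N) N) g (fun i N => f N i) e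
    exact (congrArg (fun x => σ N x i j) h7).symm.trans (sub_eq_zero.1 (h4 i j))
  rw [map_zw] at h6
  exact hf N (congrArg Units.val ((map_zw (σ N).toHomUnits (g N) (f N) N).trans (zw_mono h6 h5)))

end Pool.Agent.Lib.MP_b39e30_al.Fit
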